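import Mathlib
import Pool.Agent.H32.Cyc

set_option autoImplicit false

namespace Pool.Agent.Results.MP_c28122_co.SizeOne

/-- `A` is `t`-independent: every integer coefficient vector `l` on `A` with
`sum |l a| <= t` and `sum l a * a = 0` vanishes on `A`. -/
def TIndependent {G : Type*} [AddCommGroup G] (t : ℕ) (A : Finset G) : Prop :=
  ∀ l : G → ℤ, ∑ a ∈ A, |l a| ≤ (t : ℤ) → ∑ a ∈ A, l a • a = 0 → ∀ a ∈ A, l a = 0

/-- The largest size of a `t`-independent subset of the (finite) abelian group `G`. -/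
noncomputable def tauPM (G : Type*) [AddCommGroup G] (t : ℕ) : ℕ :=
  sSup {k : ℕ | ∃ A : Finset G, TIndependent t A ∧ A.card = k}

/-- The number `b_t = floor (t^2 / 2) + t`. -/
def bNum (t : ℕ) : ℕ := t ^ 2 / 2 + t

theorem TIndependent.subset {G : Type*} [AddCommGroup G] {t : ℕ} {A B : Finset G}
    (hA : TIndependent t A) (hBA : B ⊆ A) : TIndependent t B := by
  classical
  intro l hl hz b hb
  have h1 : ∑ a ∈ A, |(if a ∈ B then l a else 0)| = ∑ a ∈ B, |l a| := by
    rw [← Finset.sum_subset hBA (f := fun a => |(if a ∈ B then l a else 0)|)]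
    · apply Finset.sum_congr rfl
      intro x hx; simp [hx]
    · intro x _ hx; simp [hx]
  have h2 : ∑ a ∈ A, (if a ∈ B then l a else 0) • a = ∑ a ∈ B, l a • a := by
    rw [← Finset.sum_subset hBA (f := fun a => (if a ∈ B then l a else 0) • a)]
    · apply Finset.sum_congr rfl
      intro x hx; simp [hx]
    · intro x _ hx; simp [hx]
  have := hA (fun a => if a ∈ B then l a else 0) (by rw [h1]; exact hl) (by rw [h2]; exact hz)
    b (hBA hb)
  simpa [hb] using this

theorem tau_eq_one_iff {G : Type*} [AddCommGroup G] [Finite G] (t : ℕ) :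
    tauPM G t = 1 ↔ (∃ a : G, TIndependent t {a}) ∧
      ¬ ∃ A : Finset G, TIndependent t A ∧ A.card = 2 := by
  classical
  have := Fintype.ofFinite G
  set S : Set ℕ := {k : ℕ | ∃ A : Finset G, TIndependent t A ∧ A.card = k} with hS
  have hbdd : BddAbove S := ⟨Fintype.card G, by
    rintro k ⟨A, _, rfl⟩
    exact Finset.card_le_univ A⟩
  have hne : S.Nonempty := ⟨0, ∅, by intro l _ _ a ha; simp at ha, rfl⟩
  constructor
  · intro h
    have h1 : sSup S ∈ S := Nat.sSup_mem hne hbdd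
    have h1' : (1 : ℕ) ∈ S := by
      have : sSup S = 1 := h
      rwa [this] at h1
    obtain ⟨A, hA, hA1⟩ := h1'
    obtain ⟨a, rfl⟩ := Finset.card_eq_one.mp hA1
    refine ⟨⟨a, hA⟩, ?_⟩
    intro h2
    have : 2 ≤ sSup S := le_csSup hbdd h2
    have h3 : sSup S = 1 := h
    omega
  · rintro ⟨⟨a, ha⟩, h2⟩
    apply le_antisymm
    · apply csSup_le hne
      rintro k ⟨A, hA, rfl⟩
      by_contra hk
      push Not at hk
      obtain ⟨B, hB, hB2⟩ := Finset.exists_subset_card_eq (show 2 ≤ A.card from hk)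
      exact h2 ⟨B, hA.subset hB, hB2⟩
    · exact le_csSup hbdd ⟨{a}, ha, by simp⟩

theorem singleton_iff {n : ℕ} [NeZero n] {t : ℕ} :
    (∃ a : ZMod n, TIndependent t {a}) ↔ t + 1 ≤ n := by
  constructor
  · rintro ⟨a, ha⟩
    by_contra hn
    have := ha (fun _ => (n : ℤ)) (by simp; omega) (by simp) a (by simp)
    have h2 := NeZero.ne n
    exact h2 (by exact_mod_cast this)
  · intro hn
    refine ⟨1, ?_⟩
    intro l hl hz a ha
    simp only [Finset.mem_singleton] at ha
    subst ha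
    simp only [Finset.sum_singleton] at hl hz
    rw [zsmul_eq_mul, mul_one, ZMod.intCast_zmod_eq_zero_iff_dvd] at hz
    exact Int.eq_zero_of_abs_lt_dvd hz (by omega)

theorem pair_iff {n : ℕ} {t : ℕ} (ht : 2 ≤ t) :
    (∃ A : Finset (ZMod n), TIndependent t A ∧ A.card = 2) ↔
      ∃ a b : ZMod n, H32.Cyc.PairInd n (t : ℤ) a b := by
  classical
  constructor
  · rintro ⟨A, hA, hA2⟩
    obtain ⟨a, b, hab, rfl⟩ := Finset.card_eq_two.mp hA2
    refine ⟨a, b, ?_⟩
    intro l m hlm hz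
    have hs : ∀ {M : Type} [AddCommMonoid M] (f : ZMod n → M),
        ∑ x ∈ ({a, b} : Finset (ZMod n)), f x = f a + f b := fun f => Finset.sum_pair hab
    have := hA (fun x => if x = a then l else m)
      (by rw [hs]; simpa [hab.symm] using hlm)
      (by rw [hs]; simpa [hab.symm] using hz)
    constructor
    · simpa using this a (by simp)
    · simpa [hab.symm] using this b (by simp)
  · rintro ⟨a, b, h⟩
    have hab : a ≠ b := by
      rintro rfl
      have := h 1 (-1) (by norm_num; omega) (by push_cast; ring)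
      omega
    refine ⟨{a, b}, ?_, Finset.card_pair hab⟩
    intro l hl hz x hx
    rw [Finset.sum_pair hab] at hl hz
    rw [zsmul_eq_mul, zsmul_eq_mul] at hz
    have := h (l a) (l b) hl hz
    simp only [Finset.mem_insert, Finset.mem_singleton] at hx
    rcases hx with rfl | rfl
    · exact this.1
    · exact this.2

theorem bNum_eq (s : ℕ) (hs : 1 ≤ s) : bNum (2 * s - 1) = 2 * s ^ 2 - 1 := by
  unfold bNum
  obtain ⟨k, rfl⟩ : ∃ k, s = k + 1 := ⟨s - 1, by omega⟩
  have h1 : 2 * (k + 1) - 1 = 2 * k + 1 := by omega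
  rw [h1]
  have h2 : (2 * k + 1) ^ 2 = 2 * (2 * k ^ 2 + 2 * k) + 1 := by ring
  have h3 : 2 * (k + 1) ^ 2 = 2 * k ^ 2 + 4 * k + 2 := by ring
  rw [h2, h3]
  omega

/-- Full answer: for odd `t >= 3` the positive integers `n` with `tau(Z_n,[1,t]) = 1` are exactly
those with `t + 1 <= n <= b_t`, and those with `b_t + 2 <= n <= b_t + (t+1)/2` for which `n` is odd,
or `t` is `1` mod `4` and `4` divides `n`. -/
theorem result (t : ℕ) (ht : 3 ≤ t) (hodd : Odd t) (n : ℕ) (hn : 0 < n) :
    tauPM (ZMod n) t = 1 ↔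
      (t + 1 ≤ n ∧ n ≤ bNum t) ∨
      (bNum t + 2 ≤ n ∧ n ≤ bNum t + (t + 1) / 2 ∧ (Odd n ∨ (t % 4 = 1 ∧ 4 ∣ n))) := by
  have : NeZero n := ⟨by omega⟩
  obtain ⟨s, hs, rfl⟩ : ∃ s, 2 ≤ s ∧ t = 2 * s - 1 := by
    obtain ⟨k, hk⟩ := hodd
    exact ⟨k + 1, by omega, by omega⟩
  rw [tau_eq_one_iff, singleton_iff, pair_iff (by omega), bNum_eq s (by omega)]
  have hcast : ((2 * s - 1 : ℕ) : ℤ) = 2 * (s : ℤ) - 1 := by omega
  rw [hcast]
  have hpos : 8 ≤ 2 * s ^ 2 := by nlinarith
  have hs2 : s ≤ s ^ 2 := by nlinarith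
  have hs3 : 2 * s ≤ s ^ 2 := by nlinarith
  have hpair : (∃ a b : ZMod n, H32.Cyc.PairInd n (2 * (s : ℤ) - 1) a b) ↔
      2 * s ^ 2 + s ≤ n ∨ (2 * s ^ 2 ≤ n ∧ Even n ∧ (Even s ∨ n % 4 = 2)) := by
    constructor
    · rintro ⟨a, b, h⟩
      by_cases hn' : 2 * s ^ 2 + s ≤ n
      · exact Or.inl hn'
      · exact Or.inr (H32.Cyc.nonexist hs h (by omega))
    · rintro (h | ⟨h1, h2, h3⟩)
      · exact ⟨_, _, H32.Cyc.exists_large (by omega) h⟩
      · by_cases hse : Even s
        · exact ⟨_, _, H32.Cyc.exists_even hs hse h2 h1⟩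
        · have hso : Odd s := Nat.not_even_iff_odd.mp hse
          have h4 : n % 4 = 2 := by
            rcases h3 with h3 | h3
            · exact absurd h3 hse
            · exact h3
          have hs3' : 3 ≤ s := by
            rcases hso with ⟨k, hk⟩
            omega
          exact ⟨_, _, H32.Cyc.exists_odd hs3' hso h4 h1⟩
  rw [hpair]
  have hpar : s ^ 2 % 2 = s % 2 := by
    rcases Nat.mod_two_eq_zero_or_one s with h | h <;> simp [Nat.pow_mod, h]
  generalize s ^ 2 = q at *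
  simp only [Nat.odd_iff, Nat.even_iff, Nat.dvd_iff_mod_eq_zero]
  constructor
  · rintro ⟨h1, h2⟩
    push Not at h2
    obtain ⟨h2, h3⟩ := h2
    by_cases hc : n ≤ 2 * q - 1
    · left; omega
    · right
      by_cases hne : n % 2 = 0
      · have := h3 (by omega) hne
        refine ⟨by omega, by omega, Or.inr ⟨by omega, by omega⟩⟩
      · refine ⟨by omega, by omega, Or.inl (by omega)⟩
  · rintro (h | ⟨h1, h2, h3⟩)
    · refine ⟨by omega, by omega⟩
    · refine ⟨by omega, by omega⟩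

end Pool.Agent.Results.MP_c28122_co.SizeOne
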